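import Mathlib
import Pool.Agent.KS6_17.CD.Var

/-!
# Anticommutative algebras in the varieties generated by the Cayley-Dickson algebras

For every `n ≥ 4` and every simple Cayley-Dickson algebra `A_n` over an infinite field there is an
anticommutative algebra satisfying all identities of `A_n` which is not locally nilpotent. If the
characteristic is not two, it can be chosen such that all its multilinear identities of degree
`m < n / 2` hold in all anticommutative algebras.

The definitions `CD`, `mul`, `CDAlg`, `IsSimple`, `IsIdentity`, `LocallyNilpotent` are those of the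
starting result `NotAdmissible`; `lettersM` and `Multilinear` are in `Pool.Agent.KS6_17.CD.Var`.
-/

set_option autoImplicit false

namespace Pool.Agent.Results.MP_68720f_al.NoShortIdentities

open Pool.Agent.Results.MP_68720f_al.NotAdmissible Pool.Agent.KS6_17.CD
open Pool.Agent.H48.BAlg

variable {F : Type} [Field F]

theorem L2_sq (x : L2 F) : x * x = 0 := by
  apply L2_ext
  · rfl
  · change f1 x * f2 x - f2 x * f1 x = 0
    ring

theorem L2_anti (x y : L2 F) : x * y = -(y * x) := by
  apply L2_ext
  · change (0 : F) = -0
    ring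
  · change f1 x * f2 y - f2 x * f1 y = -(f1 y * f2 x - f2 y * f1 x)
    ring

theorem prod_identity {A B : Type} [NonUnitalNonAssocRing A] [Module F A] [IsScalarTower F A A]
    [SMulCommClass F A A] [NonUnitalNonAssocRing B] [Module F B] [IsScalarTower F B B]
    [SMulCommClass F B B] (f : FreeNonUnitalNonAssocAlgebra F ℕ) :
    IsIdentity F (A × B) f ↔ IsIdentity F A f ∧ IsIdentity F B f := by
  constructor
  · intro h
    constructor
    · intro v
      have h1 := congrArg (NonUnitalAlgHom.fst F A B) (h fun i => (v i, 0))
      rw [map_lift, map_zero] at h1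
      exact h1
    · intro v
      have h1 := congrArg (NonUnitalAlgHom.snd F A B) (h fun i => (0, v i))
      rw [map_lift, map_zero] at h1
      exact h1
  · rintro ⟨h1, h2⟩ v
    apply Prod.ext
    · have e := map_lift F (NonUnitalAlgHom.fst F A B) v f
      exact e.trans (h1 _)
    · have e := map_lift F (NonUnitalAlgHom.snd F A B) v f
      exact e.trans (h2 _)

theorem prod_not_nil {A : Type} [NonUnitalNonAssocRing A] [Module F A] [IsScalarTower F A A]
    [SMulCommClass F A A] : ¬ LocallyNilpotent F (L2 F × A) := by
  classical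
  intro h
  let x : L2 F × A := (mk (lm F) (1, 0), 0)
  let y : L2 F × A := (mk (lm F) (0, 1), 0)
  obtain ⟨m, hm, h⟩ := h {x, y}
  let v : ℕ → L2 F × A := fun i => if i = 0 then x else y
  have hv : ∀ n, FreeMagma.lift v (word n) = y := by
    intro n
    induction n with
    | zero => rfl
    | succ n ih =>
      rw [word, map_mul, ih]
      apply Prod.ext
      · apply L2_ext
        · rfl
        · change (1 : F) * 1 - 0 * 0 = 1
          ring
      · exact mul_zero (0 : A)
  have := h (word (m - 1)) (by rw [word_length]; omega) v (fun i => by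
    apply NonUnitalAlgebra.subset_adjoin
    by_cases hi : i = 0 <;> simp [v, hi])
  rw [hv] at this
  have h1 : (1 : F) = 0 := congrArg (fun z : L2 F × A => f2 z.1) this
  exact one_ne_zero h1

/-- Let `F` be an infinite field, `n = k + 1 ≥ 4` and `A_n = CDAlg α γ k` with `1 + 4 α ≠ 0` and
nonzero parameters `γ_2, …, γ_n`. Then `A_n` is simple, and there is an anticommutative algebra `B`
(even with `x * x = 0`) which satisfies all identities of `A_n`, is not locally nilpotent and, if
`F` does not have characteristic two, has the following property: every multilinear identity of `B`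
of degree `m` with `2 m < n` is an identity of all anticommutative `F`-algebras. -/
theorem result (F : Type) [Field F] [Infinite F] (k : ℕ) (hk : 4 ≤ k + 1) (α : F) (γ : ℕ → F)
    (hα : 1 + 4 * α ≠ 0) (hγ : ∀ i, 2 ≤ i → i ≤ k + 1 → γ i ≠ 0) :
    IsSimple F (CDAlg α γ k) ∧
    ∃ (B : Type) (_ : NonUnitalNonAssocRing B) (_ : Module F B) (_ : IsScalarTower F B B)
      (_ : SMulCommClass F B B),
      (∀ x : B, x * x = 0) ∧ (∀ x y : B, x * y = -(y * x)) ∧
      (∀ f, IsIdentity F (CDAlg α γ k) f → IsIdentity F B f) ∧
      ¬ LocallyNilpotent F B ∧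
      ((2 : F) ≠ 0 → ∀ (m : ℕ) (f : FreeNonUnitalNonAssocAlgebra F ℕ), 2 * m < k + 1 →
        Multilinear F m f → IsIdentity F B f →
        ∀ (C : Type) [NonUnitalNonAssocRing C] [Module F C] [IsScalarTower F C C]
          [SMulCommClass F C C], (∀ x y : C, x * y = -(y * x)) → IsIdentity F C f) := by
  refine ⟨?_, ?_⟩
  · obtain ⟨j, rfl⟩ : ∃ j, k = j + 1 := ⟨k - 1, by omega⟩
    exact simple α γ hα j hγ
  have hL2 := L2_identity α γ hα (hγ 2 le_rfl (by omega)) (hγ 4 (by omega) hk) k (by omega)
  by_cases h2 : (2 : F) = 0
  · exact ⟨L2 F, inferInstance, inferInstance, inferInstance, inferInstance, L2_sq, L2_anti, hL2,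
      L2_not_nil, fun h => absurd h2 h⟩
  let K := AlgebraicClosure F
  have hK : ∀ c : K, ∃ d, d * d = c := fun c => by
    obtain ⟨d, hd⟩ := IsAlgClosed.exists_pow_nat_eq c (n := 2) (by norm_num)
    exact ⟨d, by rw [← pow_two]; exact hd⟩
  have h2K : (2 : K) ≠ 0 := by
    intro h
    apply h2
    apply (algebraMap F K).injective
    rw [map_ofNat, map_zero]
    exact h
  refine ⟨L2 F × CC F K α γ k, inferInstance, inferInstance, inferInstance, inferInstance,
    fun x => Prod.ext (L2_sq _) (CC_sq F K α γ k h2 _),
    fun x y => Prod.ext (L2_anti _ _) (CC_anti F K α γ k _ _),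
    fun f hf => (prod_identity f).2 ⟨hL2 f hf, identity_CC F K α γ k f hf⟩,
    prod_not_nil, ?_⟩
  intro _ m f hm hf hB C _ _ _ _ hC
  obtain ⟨L, hLm, hL⟩ := hf
  have hL' : ∀ w ∈ f.coeff.support, ML w ∧ letters w = L := by
    intro w hw
    refine ⟨(ML_iff w).2 (by rw [hL w hw]; exact L.nodup), ?_⟩
    rw [letters_eq, hL w hw, Finset.val_toFinset]
  exact final hK h2K (by omega) hγ f L hLm hL'
    (of_identity_CC F K α γ k f L hL' ((prod_identity f).1 hB).2) hC

end Pool.Agent.Results.MP_68720f_al.NoShortIdentities
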